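import Mathlib

/-! Counting: a nonempty finite set of points of `ℝ^p` (p prime) invariant under the cyclic shift and
the sign change of the coordinate `0`, staying close to the vertices of the cube, has at least `2^p` points. -/

set_option autoImplicit false

namespace Pool.Agent.R814

/-- the two coordinates of the vertices of the cube. -/
noncomputable def half (b : Bool) : ℝ := if b then 1 / 2 else -1 / 2

theorem half_sq (b : Bool) : half b ^ 2 = 1 / 4 := by
  cases b <;> norm_num [half]

theorem abs_half (b : Bool) : |half b| = 1 / 2 := by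
  cases b <;> norm_num [half, abs_div]

section
variable {p : ℕ} [Fact p.Prime]

/-- sign changes at the coordinates in `T`. -/
noncomputable def flipT (T : Finset (ZMod p)) (b : ZMod p → ℝ) : ZMod p → ℝ :=
  fun j => if j ∈ T then -b j else b j

/-- cyclic shift of the coordinates. -/
def rot (t : ZMod p) (b : ZMod p → ℝ) : ZMod p → ℝ := fun j => b (j - t)

theorem count (B : Finset (ZMod p → ℝ)) (hne : B.Nonempty)
    (hrot : ∀ b ∈ B, rot 1 b ∈ B) (hflip : ∀ b ∈ B, flipT {0} b ∈ B)
    (hz : ∀ b ∈ B, 2 ^ (Finset.univ.filter (fun j => b j = 0)).card ≤ p) :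
    2 ^ p ≤ B.card := by
  classical
  have hp : p.Prime := Fact.out
  -- closure under all rotations
  have hrotn : ∀ n : ℕ, ∀ b ∈ B, rot (n : ZMod p) b ∈ B := by
    intro n
    induction n with
    | zero =>
      intro b hb
      have : rot ((0 : ℕ) : ZMod p) b = b := by
        funext j; simp [rot]
      rw [this]; exact hb
    | succ n ih =>
      intro b hb
      have h1 := hrot _ (ih b hb)
      have : rot 1 (rot (n : ZMod p) b) = rot ((n + 1 : ℕ) : ZMod p) b := by
        funext j
        simp only [rot, Nat.cast_add, Nat.cast_one]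
        congr 1
        ring
      rw [← this]; exact h1
  have hrott : ∀ t : ZMod p, ∀ b ∈ B, rot t b ∈ B := by
    intro t b hb
    have h := hrotn t.val b hb
    rwa [ZMod.natCast_zmod_val] at h
  have hflip1 : ∀ a : ZMod p, ∀ b ∈ B, flipT {a} b ∈ B := by
    intro a b hb
    have h1 := hrott a _ (hflip _ (hrott (-a) _ hb))
    have : rot a (flipT {0} (rot (-a) b)) = flipT {a} b := by
      funext j
      simp only [rot, flipT, Finset.mem_singleton, sub_eq_zero, sub_neg_eq_add, sub_add_cancel]
    rwa [this] at h1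
  have hflipT : ∀ T : Finset (ZMod p), ∀ b ∈ B, flipT T b ∈ B := by
    intro T
    induction T using Finset.induction_on with
    | empty =>
      intro b hb
      have : flipT ∅ b = b := by funext j; simp [flipT]
      rwa [this]
    | insert a T ha ih =>
      intro b hb
      have h1 := hflip1 a _ (ih b hb)
      have : flipT {a} (flipT T b) = flipT (insert a T) b := by
        funext j
        by_cases hj : j = a
        · subst hj
          simp [flipT, ha]
        · simp [flipT, hj]
      rwa [this] at h1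
  obtain ⟨b, hb⟩ := hne
  set S : Finset (ZMod p) := Finset.univ.filter (fun j => b j ≠ 0) with hS
  set Z : Finset (ZMod p) := Finset.univ.filter (fun j => b j = 0) with hZ
  have hcard : Z.card + S.card = p := by
    have := Finset.card_filter_add_card_filter_not (s := (Finset.univ : Finset (ZMod p)))
      (fun j => b j = 0)
    rw [Finset.card_univ, ZMod.card] at this
    exact this
  have hzb : 2 ^ Z.card ≤ p := hz b hb
  have hzlt : Z.card < p := lt_of_lt_of_le Nat.lt_two_pow_self hzb
  by_cases hZ0 : Z.card = 0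
  · -- all coordinates nonzero
    have hSp : S.card = p := by omega
    have hnz : ∀ j, b j ≠ 0 := by
      intro j hj
      have : j ∈ Z := by simp [hZ, hj]
      rw [Finset.card_eq_zero] at hZ0
      rw [hZ0] at this
      simp at this
    have hinj : Function.Injective (fun T : Finset (ZMod p) => flipT T b) := by
      intro T T' h
      ext j
      have h1 := congrFun h j
      simp only [flipT] at h1
      have h2 := hnz j
      by_cases h3 : j ∈ T <;> by_cases h4 : j ∈ T' <;> simp [h3, h4] at h1 ⊢
      · apply h2; linarith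
      · apply h2; linarith
    have h1 : ((Finset.univ : Finset (Finset (ZMod p))).image (fun T => flipT T b)).card ≤ B.card := by
      apply Finset.card_le_card
      intro x hx
      obtain ⟨T, _, rfl⟩ := Finset.mem_image.1 hx
      exact hflipT T b hb
    rw [Finset.card_image_of_injective _ hinj, Finset.card_univ, Fintype.card_finset, ZMod.card] at h1
    exact h1
  · -- some coordinate vanishes
    have hSne : S.Nonempty := by
      rw [← Finset.card_pos]; omega
    -- S not translation invariant
    have htrans : ∀ t : ZMod p, (∀ j, b (j + t) ≠ 0 → b j ≠ 0) → t = 0 := by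
      intro t ht
      by_contra htne
      obtain ⟨s, hs⟩ := hSne
      have hs' : b s ≠ 0 := by simpa [hS] using hs
      have hk : ∀ k : ℕ, b (s - k * t) ≠ 0 := by
        intro k
        induction k with
        | zero => simpa using hs'
        | succ k ih =>
          apply ht
          have : s - ((k + 1 : ℕ) : ZMod p) * t + t = s - k * t := by push_cast; ring
          rw [this]; exact ih
      have hall : ∀ x, b x ≠ 0 := by
        intro x
        have h1 := hk (((s - x) / t).val)
        rw [ZMod.natCast_zmod_val, div_mul_cancel₀ _ htne] at h1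
        simpa using h1
      apply hZ0
      rw [Finset.card_eq_zero]
      ext j
      simp [hZ, hall j]
    let f : ZMod p × Finset (ZMod p) → (ZMod p → ℝ) := fun x => rot x.1 (flipT x.2 b)
    have hsupp : ∀ (T : Finset (ZMod p)) (j : ZMod p), flipT T b j = 0 ↔ b j = 0 := by
      intro T j
      simp only [flipT]
      by_cases h : j ∈ T <;> simp [h]
    have hinj : Set.InjOn f ((Finset.univ ×ˢ S.powerset : Finset (ZMod p × Finset (ZMod p))) : Set _) := by
      rintro ⟨t, T⟩ hT ⟨t', T'⟩ hT' h
      simp only [Finset.coe_product, Set.mem_prod, Finset.mem_coe, Finset.mem_univ,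
        Finset.mem_powerset, true_and] at hT hT'
      simp only [f] at h
      have ht : t' - t = 0 := by
        apply htrans
        intro j hj hj0
        apply hj
        have h1 := congrFun h (j + t')
        simp only [rot, add_sub_cancel_right] at h1
        have h2 : flipT T' b j = 0 := (hsupp T' j).2 hj0
        rw [h2] at h1
        have h3 := (hsupp T _).1 h1
        rw [← h3]; congr 1; ring
      have ht' : t = t' := (sub_eq_zero.1 ht).symm
      subst ht'
      have hTT : T = T' := by
        ext j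
        have h1 := congrFun h (j + t)
        simp only [rot, add_sub_cancel_right, flipT] at h1
        by_cases hj : b j = 0
        · have hjS : j ∉ S := by simp [hS, hj]
          exact ⟨fun h => absurd (hT h) hjS, fun h => absurd (hT' h) hjS⟩
        · by_cases h3 : j ∈ T <;> by_cases h4 : j ∈ T' <;> simp [h3, h4] at h1 ⊢
          · apply hj; linarith
          · apply hj; linarith
      rw [hTT]
    have h1 : ((Finset.univ ×ˢ S.powerset : Finset (ZMod p × Finset (ZMod p))).image f).card ≤ B.card := by
      apply Finset.card_le_card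
      intro x hx
      obtain ⟨⟨t, T⟩, _, rfl⟩ := Finset.mem_image.1 hx
      exact hrott t _ (hflipT T b hb)
    rw [Finset.card_image_of_injOn hinj, Finset.card_product, Finset.card_univ, ZMod.card,
      Finset.card_powerset] at h1
    calc 2 ^ p = 2 ^ Z.card * 2 ^ S.card := by rw [← pow_add, hcard]
      _ ≤ p * 2 ^ S.card := Nat.mul_le_mul_right _ hzb
      _ ≤ B.card := h1

/-- Compactness: approximate invariance for all precisions gives exact invariance, hence many points. -/
theorem count_approx (D : ℝ) (m : ℕ)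
    (hpD : ∀ z : ℕ, (z : ℝ) ≤ 4 * D → 2 ^ z ≤ p)
    (H : ∀ ε : ℝ, 0 < ε → ∃ B : Finset (ZMod p → ℝ), B.Nonempty ∧ B.card ≤ m ∧
      (∀ b ∈ B, ∃ σ : ZMod p → Bool, ∑ j, (b j - half (σ j)) ^ 2 ≤ D) ∧
      (∀ b ∈ B, ∃ b' ∈ B, ∀ j, |b j - b' (j + 1)| ≤ ε) ∧
      (∀ b ∈ B, ∃ b' ∈ B, ∀ j, |b j - flipT {0} b' j| ≤ ε)) :
    2 ^ p ≤ m := by
  classical
  have hp : p.Prime := Fact.out
  -- choose tuples
  have H1 : ∀ t : ℕ, ∃ y : Fin m → ZMod p → ℝ,
      (∀ i, ∃ σ : ZMod p → Bool, ∑ j, (y i j - half (σ j)) ^ 2 ≤ D) ∧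
      (∀ i, ∃ i', ∀ j, |y i j - y i' (j + 1)| ≤ 1 / ((t : ℝ) + 1)) ∧
      (∀ i, ∃ i', ∀ j, |y i j - flipT {0} (y i') j| ≤ 1 / ((t : ℝ) + 1)) ∧ 0 < m := by
    intro t
    obtain ⟨B, hne, hcard, h1, h2, h3⟩ := H (1 / ((t : ℝ) + 1)) (by positivity)
    have hm : 0 < m := lt_of_lt_of_le (Finset.card_pos.2 hne) hcard
    have : Nonempty (B ↪ Fin m) := by
      apply Function.Embedding.nonempty_of_card_le
      simpa using hcard
    obtain ⟨g⟩ := this
    have : Nonempty B := hne.to_subtype
    have hs : Function.Surjective (Function.invFun g) := Function.invFun_surjective g.injective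
    refine ⟨fun i => ((Function.invFun g i : B) : ZMod p → ℝ), ?_, ?_, ?_, hm⟩
    · intro i; exact h1 _ (Function.invFun g i).2
    · intro i
      obtain ⟨b', hb', hb⟩ := h2 _ (Function.invFun g i).2
      obtain ⟨i', hi'⟩ := hs ⟨b', hb'⟩
      exact ⟨i', by simp only [hi']; exact hb⟩
    · intro i
      obtain ⟨b', hb', hb⟩ := h3 _ (Function.invFun g i).2
      obtain ⟨i', hi'⟩ := hs ⟨b', hb'⟩
      exact ⟨i', by simp only [hi']; exact hb⟩
  choose y hy1 hy2 hy3 hm using H1
  have hm0 : 0 < m := hm 0
  have hD : 0 ≤ D := by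
    obtain ⟨σ, hσ⟩ := hy1 0 ⟨0, hm0⟩
    exact le_trans (Finset.sum_nonneg fun _ _ => sq_nonneg _) hσ
  -- boundedness
  have hbd : ∀ t, y t ∈ Metric.closedBall (0 : Fin m → ZMod p → ℝ) (D + 2) := by
    intro t
    rw [mem_closedBall_zero_iff, pi_norm_le_iff_of_nonneg (by linarith)]
    intro i
    rw [pi_norm_le_iff_of_nonneg (by linarith)]
    intro j
    obtain ⟨σ, hσ⟩ := hy1 t i
    have h1 : (y t i j - half (σ j)) ^ 2 ≤ D :=
      le_trans (Finset.single_le_sum (f := fun j => (y t i j - half (σ j)) ^ 2)
        (fun _ _ => sq_nonneg _) (Finset.mem_univ j)) hσ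
    have h2 : |y t i j - half (σ j)| ≤ D + 1 := by
      apply abs_le_of_sq_le_sq _ (by linarith) 
      nlinarith
    have h3 := abs_half (σ j)
    rw [Real.norm_eq_abs]
    calc |y t i j| = |(y t i j - half (σ j)) + half (σ j)| := by ring_nf
      _ ≤ |y t i j - half (σ j)| + |half (σ j)| := abs_add_le _ _
      _ ≤ D + 2 := by rw [h3]; linarith
  have hcomp : IsCompact (Metric.closedBall (0 : Fin m → ZMod p → ℝ) (D + 2)) :=
    isCompact_closedBall _ _
  set U := Filter.hyperfilter ℕ with hU
  obtain ⟨yy, _, hyy⟩ := hcomp.ultrafilter_le_nhds (U.map y) (by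
    rw [Filter.le_principal_iff]
    exact Filter.Eventually.of_forall (f := (U : Filter ℕ)) hbd)
  have hlim : Filter.Tendsto y (U : Filter ℕ) (nhds yy) := hyy
  have hlim1 : ∀ i j, Filter.Tendsto (fun t => y t i j) (U : Filter ℕ) (nhds (yy i j)) := by
    intro i j
    have h1 := (tendsto_pi_nhds.1 hlim) i
    exact (tendsto_pi_nhds.1 h1) j
  have heps : Filter.Tendsto (fun t : ℕ => 1 / ((t : ℝ) + 1)) (U : Filter ℕ) (nhds 0) :=
    (tendsto_one_div_add_atTop_nhds_zero_nat (𝕜 := ℝ)).mono_left (by
      rw [← Nat.cofinite_eq_atTop]; exact Filter.hyperfilter_le_cofinite)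
  have e1 : ∀ i, ∃ σ : ZMod p → Bool, ∑ j, (yy i j - half (σ j)) ^ 2 ≤ D := by
    intro i
    have h1 : ∀ᶠ t in (U : Filter ℕ), ∃ σ : ZMod p → Bool, ∑ j, (y t i j - half (σ j)) ^ 2 ≤ D :=
      Filter.Eventually.of_forall fun t => hy1 t i
    obtain ⟨σ, hσ⟩ := Ultrafilter.eventually_exists_iff.1 h1
    refine ⟨σ, le_of_tendsto ?_ hσ⟩
    exact tendsto_finsetSum _ fun j _ => ((hlim1 i j).sub_const _).pow 2
  have e2 : ∀ i, ∃ i', ∀ j, yy i j = yy i' (j + 1) := by
    intro i
    have h1 : ∀ᶠ t in (U : Filter ℕ), ∃ i', ∀ j, |y t i j - y t i' (j + 1)| ≤ 1 / ((t : ℝ) + 1) :=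
      Filter.Eventually.of_forall fun t => hy2 t i
    obtain ⟨i', hi'⟩ := Ultrafilter.eventually_exists_iff.1 h1
    refine ⟨i', fun j => ?_⟩
    have h2 : |yy i j - yy i' (j + 1)| ≤ 0 :=
      le_of_tendsto_of_tendsto (((hlim1 i j).sub (hlim1 i' (j + 1))).abs) heps
        (hi'.mono fun t ht => ht j)
    have h3 := abs_eq_zero.1 (le_antisymm h2 (abs_nonneg _))
    linarith
  have e3 : ∀ i, ∃ i', ∀ j, yy i j = flipT {0} (yy i') j := by
    intro i
    have h1 : ∀ᶠ t in (U : Filter ℕ), ∃ i', ∀ j,
        |y t i j - flipT {0} (y t i') j| ≤ 1 / ((t : ℝ) + 1) :=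
      Filter.Eventually.of_forall fun t => hy3 t i
    obtain ⟨i', hi'⟩ := Ultrafilter.eventually_exists_iff.1 h1
    refine ⟨i', fun j => ?_⟩
    have hl : Filter.Tendsto (fun t => flipT {0} (y t i') j) (U : Filter ℕ)
        (nhds (flipT {0} (yy i') j)) := by
      simp only [flipT]
      by_cases hj : j ∈ ({0} : Finset (ZMod p))
      · simp only [hj, if_true]; exact (hlim1 i' j).neg
      · simp only [hj, if_false]; exact hlim1 i' j
    have h2 : |yy i j - flipT {0} (yy i') j| ≤ 0 :=
      le_of_tendsto_of_tendsto (((hlim1 i j).sub hl).abs) heps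
        (hi'.mono fun t ht => ht j)
    have h3 := abs_eq_zero.1 (le_antisymm h2 (abs_nonneg _))
    linarith
  -- the invariant set
  set B : Finset (ZMod p → ℝ) := Finset.univ.image yy with hB
  have hBne : B.Nonempty := ⟨yy ⟨0, hm0⟩, Finset.mem_image_of_mem _ (Finset.mem_univ _)⟩
  have hBcard : B.card ≤ m := by
    refine le_trans Finset.card_image_le ?_
    simp
  refine le_trans (count B hBne ?_ ?_ ?_) hBcard
  · -- rotation: the map b ↦ b(· + 1) maps B to B; it is injective, so its inverse does too
    have hsub : ∀ b ∈ B, (fun j => b (j - 1)) ∈ B := by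
      intro b hb
      obtain ⟨i, _, rfl⟩ := Finset.mem_image.1 hb
      obtain ⟨i', hi'⟩ := e2 i
      refine Finset.mem_image.2 ⟨i', Finset.mem_univ _, ?_⟩
      funext j
      have := hi' (j - 1)
      rw [this]; congr 1; ring
    intro b hb
    exact hsub b hb
  · intro b hb
    obtain ⟨i, _, rfl⟩ := Finset.mem_image.1 hb
    obtain ⟨i', hi'⟩ := e3 i
    refine Finset.mem_image.2 ⟨i', Finset.mem_univ _, ?_⟩
    funext j
    have := hi' j
    simp only [flipT] at this ⊢
    by_cases hj : j ∈ ({0} : Finset (ZMod p))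
    · simp only [hj, if_true] at this ⊢; linarith
    · simp only [hj, if_false] at this ⊢; linarith
  · intro b hb
    obtain ⟨i, _, rfl⟩ := Finset.mem_image.1 hb
    obtain ⟨σ, hσ⟩ := e1 i
    apply hpD
    have h1 : ∑ j ∈ Finset.univ.filter (fun j => yy i j = 0), (yy i j - half (σ j)) ^ 2 ≤ D :=
      le_trans (Finset.sum_le_sum_of_subset_of_nonneg (Finset.filter_subset _ _)
        (fun _ _ _ => sq_nonneg _)) hσ
    have h2 : ∑ j ∈ Finset.univ.filter (fun j => yy i j = 0), (yy i j - half (σ j)) ^ 2 =
        ∑ j ∈ Finset.univ.filter (fun j => yy i j = 0), (1 / 4 : ℝ) := by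
      apply Finset.sum_congr rfl
      intro j hj
      have : yy i j = 0 := (Finset.mem_filter.1 hj).2
      rw [this, zero_sub, neg_sq, half_sq]
    rw [h2, Finset.sum_const, nsmul_eq_mul] at h1
    linarith
end

end Pool.Agent.R814
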