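import Mathlib

/-! A finite Ramsey theorem for strictly increasing lists, proved with iterated ultrafilter quantifiers. -/

set_option autoImplicit false

namespace Pool.Agent.R814

open Filter

/-- Iterated `for almost all` along a nonprincipal ultrafilter on the naturals. -/
def Ev : ℕ → (List ℕ → Prop) → Prop
  | 0, P => P []
  | (M + 1), P => ∀ᶠ s in (hyperfilter ℕ : Filter ℕ), Ev M (fun L => P (s :: L))

theorem Ev.mono : ∀ (M : ℕ) {P Q : List ℕ → Prop}, (∀ L, P L → Q L) → Ev M P → Ev M Q
  | 0, _, _, h, hp => h _ hp
  | (M + 1), _, _, h, hp => by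
      refine Filter.Eventually.mono hp ?_
      intro s hs
      exact Ev.mono M (fun L => h _) hs

theorem Ev.and : ∀ (M : ℕ) {P Q : List ℕ → Prop}, Ev M P → Ev M Q → Ev M (fun L => P L ∧ Q L)
  | 0, _, _, hp, hq => ⟨hp, hq⟩
  | (M + 1), _, _, hp, hq => by
      filter_upwards [hp, hq] with s hs ht
      exact Ev.and M hs ht

theorem Ev.const : ∀ (M : ℕ) {P : List ℕ → Prop}, (∀ L, P L) → Ev M P
  | 0, _, h => h _
  | (M + 1), _, h => Filter.Eventually.of_forall fun s => Ev.const M fun L => h _

theorem Ev.exists : ∀ (M : ℕ) {P : List ℕ → Prop}, Ev M P → ∃ L : List ℕ, L.length = M ∧ P L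
  | 0, _, h => ⟨[], rfl, h⟩
  | (M + 1), P, h => by
      obtain ⟨s, hs⟩ := Filter.Eventually.exists h
      obtain ⟨L, hL, hP⟩ := Ev.exists M hs
      exact ⟨s :: L, by simp [hL], hP⟩

/-- Ultrafilter property: one color wins. -/
theorem Ev.color {κ : Type*} [Finite κ] : ∀ (M : ℕ) (c : List ℕ → κ),
    ∃ k, Ev M (fun L => c L = k)
  | 0, c => ⟨c [], rfl⟩
  | (M + 1), c => by
      choose f hf using fun s : ℕ => Ev.color M (fun L => c (s :: L))
      have : ∃ k, ∀ᶠ s in (hyperfilter ℕ : Filter ℕ), f s = k := by
        have h1 : ∀ᶠ s in (hyperfilter ℕ : Filter ℕ), ∃ k, f s = k :=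
          Filter.Eventually.of_forall fun s => ⟨_, rfl⟩
        exact Ultrafilter.eventually_exists_iff.1 h1
      obtain ⟨k, hk⟩ := this
      refine ⟨k, ?_⟩
      filter_upwards [hk] with s hs
      have := hf s
      rw [hs] at this
      exact this

theorem Ev.sublists : ∀ (M' M : ℕ) {P : List ℕ → Prop}, Ev M P →
    Ev M' (fun L => ∀ L' : List ℕ, L'.Sublist L → L'.length = M → P L')
  | 0, M, P, h => by
      intro L' hL' hl
      have : L' = [] := by simpa using hL'
      subst this
      simp at hl
      subst hl
      exact h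
  | (M' + 1), M, P, h => by
      cases M with
      | zero =>
        apply Ev.const
        intro L L' _ hl
        have : L' = [] := List.length_eq_zero_iff.1 hl
        subst this
        exact h
      | succ m =>
        have h' := h
        change ∀ᶠ s in (hyperfilter ℕ : Filter ℕ), _ at h'
        change ∀ᶠ s in (hyperfilter ℕ : Filter ℕ), _
        filter_upwards [h'] with s hs
        have h1 := Ev.sublists M' (m + 1) h
        have h2 := Ev.sublists M' m hs
        refine Ev.mono M' ?_ (Ev.and M' h1 h2)
        rintro L ⟨ha, hb⟩ L' hL' hl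
        cases hL' with
        | cons _ h3 => exact ha _ h3 hl
        | cons_cons _ h3 =>
          apply hb _ h3
          simpa using hl

theorem Ev.pairwise (M : ℕ) : Ev M (fun L => L.Pairwise (· < ·)) := by
  have key : ∀ (M : ℕ) (a : ℕ), Ev M (fun L => ∀ x ∈ L, a < x) := by
    intro M
    induction M with
    | zero => intro a; simp [Ev]
    | succ M ih =>
      intro a
      change ∀ᶠ s in (hyperfilter ℕ : Filter ℕ), _
      have hh : ∀ᶠ s in (hyperfilter ℕ : Filter ℕ), a < s := by
        have : ∀ᶠ s in (cofinite : Filter ℕ), a < s := by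
          rw [Nat.cofinite_eq_atTop]
          exact eventually_gt_atTop a
        exact this.filter_mono (hyperfilter_le_cofinite)
      filter_upwards [hh] with s hs
      refine Ev.mono M ?_ (ih a)
      intro L hL x hx
      rcases List.mem_cons.1 hx with rfl | hx
      · exact hs
      · exact hL x hx
  induction M with
  | zero => simp [Ev]
  | succ M ih =>
    change ∀ᶠ s in (hyperfilter ℕ : Filter ℕ), _
    refine Filter.Eventually.of_forall fun s => ?_
    refine Ev.mono M ?_ (Ev.and M ih (key M s))
    rintro L ⟨h1, h2⟩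
    exact List.pairwise_cons.2 ⟨h2, h1⟩

/-- Finite Ramsey theorem for lists. -/
theorem ramsey_list {κ : Type*} [Finite κ] (M N : ℕ) (c : List ℕ → κ) :
    ∃ L : List ℕ, L.length = N ∧ L.Pairwise (· < ·) ∧
      ∃ k, ∀ L' : List ℕ, L'.Sublist L → L'.length = M → c L' = k := by
  obtain ⟨k, hk⟩ := Ev.color M c
  obtain ⟨L, hL, h1, h2⟩ := Ev.exists N (Ev.and N (Ev.pairwise N) (Ev.sublists N M hk))
  exact ⟨L, hL, h1, k, h2⟩

/-- Finite Ramsey theorem in function form: a coloring of functions on `range M`. -/
theorem ramsey_fun {κ : Type*} [Finite κ] (M N : ℕ) (c : (ℕ → ℕ) → κ)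
    (hc : ∀ f g : ℕ → ℕ, (∀ i < M, f i = g i) → c f = c g) :
    ∃ s : ℕ → ℕ, StrictMono s ∧
      ∃ k, ∀ τ : ℕ → ℕ, (∀ i j, i < j → j < M → τ i < τ j) → (∀ i < M, τ i < N) →
        c (fun i => s (τ i)) = k := by
  obtain ⟨L, hL, hp, k, hk⟩ := ramsey_list M N (fun L => c (fun i => L.getD i 0))
  refine ⟨fun i => if i < N then L.getD i 0 else L.sum + i + 1, ?_, k, ?_⟩
  · intro i j hij
    by_cases hj : j < N
    · have hi : i < N := by omega
      have hi' : i < L.length := by omega
      have hj' : j < L.length := by omega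
      simp only [hi, hj, if_true, List.getD_eq_getElem?_getD, List.getElem?_eq_getElem hi',
        List.getElem?_eq_getElem hj', Option.getD_some]
      exact List.pairwise_iff_getElem.1 hp i j hi' hj' hij
    · by_cases hi : i < N
      · have hi' : i < L.length := by omega
        simp only [hi, hj, if_true, if_false, List.getD_eq_getElem?_getD,
          List.getElem?_eq_getElem hi', Option.getD_some]
        have : L[i] ≤ L.sum := List.le_sum_of_mem (List.getElem_mem hi')
        omega
      · simp only [hi, hj, if_false]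
        omega
  · intro τ hτ hN
    have h1 : ((List.ofFn (fun i : Fin M => L.getD (τ i) 0))).Sublist L := by
      rw [List.sublist_iff_exists_fin_orderEmbedding_get_eq]
      have hlt : ∀ i : Fin (List.ofFn (fun i : Fin M => L.getD (τ i) 0)).length, (i : ℕ) < M := by
        intro i
        have h := i.2
        simpa using h
      refine ⟨OrderEmbedding.ofStrictMono (fun i => ⟨τ i, ?_⟩) ?_, ?_⟩
      · have h := hlt i
        have := hN _ h
        omega
      · intro i j hij
        exact hτ _ _ hij (hlt j)
      · intro i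
        have h3 := hN _ (hlt i)
        have h4 : τ i < L.length := by omega
        simp [List.getD_eq_getElem?_getD, List.getElem?_eq_getElem h4] <;> rfl
    have h2 := hk _ h1 (by simp)
    rw [← h2]
    apply hc
    intro i hi
    have := hN i hi
    simp [List.getD_eq_getElem?_getD, hi, this]

end Pool.Agent.R814
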