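import Mathlib
import Pool.Agent.R814.Cnt
import Pool.Agent.R814.Ram

/-! The cube spanned by an orthonormal family and the coordinates of its image under a Lipschitz retraction. -/

set_option autoImplicit false

namespace Pool.Agent.R814

open scoped Classical

section
variable {H : Type*} [NormedAddCommGroup H] [InnerProductSpace ℝ H]
variable {ι : Type*} [Fintype ι]

/-- vertex of the cube spanned by `u`. -/
noncomputable def vert (u : ι → H) (σ : ι → Bool) : H := ∑ j, half (σ j) • u j

/-- vertex set of the cube. -/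
noncomputable def cube (u : ι → H) : Finset H := Finset.univ.image (vert u)

theorem cube_nonempty (u : ι → H) : (cube u).Nonempty :=
  ⟨vert u (fun _ => true), Finset.mem_image_of_mem _ (Finset.mem_univ _)⟩

theorem cube_card (u : ι → H) : (cube u).card ≤ 2 ^ Fintype.card ι := by
  refine le_trans Finset.card_image_le ?_
  rw [Finset.card_univ, Fintype.card_fun, Fintype.card_bool]

/-- A Lipschitz retraction from sets with at most `n` points to sets with at most `n - 1` points. -/
structure Retr (H : Type*) [NormedAddCommGroup H] (n : ℕ) (C : ℝ) (r : Finset H → Finset H) : Prop where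
  nonempty : ∀ s : Finset H, s.Nonempty → s.card ≤ n → (r s).Nonempty
  card_le : ∀ s : Finset H, s.Nonempty → s.card ≤ n → (r s).card ≤ n - 1
  fix : ∀ s : Finset H, s.Nonempty → s.card ≤ n - 1 → r s = s
  lip : ∀ s t : Finset H, s.Nonempty → s.card ≤ n → t.Nonempty → t.card ≤ n →
    Metric.hausdorffDist ((r s : Finset H) : Set H) ((r t : Finset H) : Set H)
      ≤ C * Metric.hausdorffDist ((s : Finset H) : Set H) ((t : Finset H) : Set H)

theorem edist_ne_top {s t : Finset H} (hs : s.Nonempty) (ht : t.Nonempty) :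
    Metric.hausdorffEDist (s : Set H) (t : Set H) ≠ ⊤ :=
  Metric.hausdorffEDist_ne_top_of_nonempty_of_bounded (by simpa using hs) (by simpa using ht)
    s.finite_toSet.isBounded t.finite_toSet.isBounded

variable {n : ℕ} {C : ℝ} {r : Finset H → Finset H}

/-- Points of `r (cube u)` are close to vertices. -/
theorem near (hr : Retr H n C r) (hC : 0 ≤ C) (hn : n = 2 ^ Fintype.card ι) (i0 : ι)
    {u : ι → H} (hu : Orthonormal ℝ u) :
    ∀ x ∈ r (cube u), ∃ σ : ι → Bool, ‖x - vert u σ‖ ≤ C + 1 := by
  classical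
  intro x hx
  set F : Finset (ι → Bool) := Finset.univ.filter (fun σ => σ i0 = true) with hF
  set B0 : Finset H := F.image (vert u) with hB0
  have hB0ne : B0.Nonempty :=
    ⟨vert u (fun _ => true), Finset.mem_image_of_mem _ (by simp [hF])⟩
  have hFlt : F.card < (Finset.univ : Finset (ι → Bool)).card := by
    apply Finset.card_lt_card
    rw [Finset.ssubset_univ_iff]
    intro h
    have : (fun _ => false : ι → Bool) ∈ F := by rw [h]; exact Finset.mem_univ _
    simp [hF] at this
  rw [Finset.card_univ, Fintype.card_fun, Fintype.card_bool, ← hn] at hFlt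
  have hB0card : B0.card ≤ n - 1 := le_trans Finset.card_image_le (by omega)
  have hcard : (cube u).card ≤ n := by rw [hn]; exact cube_card u
  have hd : Metric.hausdorffDist ((cube u : Finset H) : Set H) ((B0 : Finset H) : Set H) ≤ 1 := by
    apply Metric.hausdorffDist_le_of_mem_dist zero_le_one
    · intro y hy
      obtain ⟨σ, _, rfl⟩ := Finset.mem_image.1 (Finset.mem_coe.1 hy)
      refine ⟨vert u (Function.update σ i0 true), ?_, ?_⟩
      · rw [Finset.mem_coe]
        exact Finset.mem_image_of_mem _ (by simp [hF])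
      · rw [dist_eq_norm, vert, vert, ← Finset.sum_sub_distrib,
          Finset.sum_eq_single i0]
        · simp only [Function.update_self]
          rw [← sub_smul, norm_smul, hu.1 i0, mul_one, Real.norm_eq_abs]
          cases σ i0 <;> norm_num [half, abs_div]
        · intro j _ hj
          rw [Function.update_of_ne hj, sub_self]
        · intro h; exact absurd (Finset.mem_univ _) h
    · intro y hy
      obtain ⟨σ, _, rfl⟩ := Finset.mem_image.1 (Finset.mem_coe.1 hy)
      refine ⟨vert u σ, ?_, by simp⟩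
      rw [Finset.mem_coe]
      exact Finset.mem_image_of_mem _ (Finset.mem_univ _)
  have h1 := hr.lip (cube u) B0 (cube_nonempty u) hcard hB0ne (by omega)
  rw [hr.fix B0 hB0ne hB0card] at h1
  have h2 : Metric.hausdorffDist ((r (cube u) : Finset H) : Set H) ((B0 : Finset H) : Set H)
      < C + 1 := by nlinarith
  obtain ⟨y, hy, hxy⟩ := Metric.exists_dist_lt_of_hausdorffDist_lt (Finset.mem_coe.2 hx) h2
    (edist_ne_top (hr.nonempty _ (cube_nonempty u) hcard) hB0ne)
  obtain ⟨σ, _, rfl⟩ := Finset.mem_image.1 (Finset.mem_coe.1 hy)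
  exact ⟨σ, by rw [← dist_eq_norm]; exact hxy.le⟩

/-- coordinates of `r (cube u)` with respect to `u`. -/
noncomputable def coords (r : Finset H → Finset H) (u : ι → H) : Finset (ι → ℝ) :=
  (r (cube u)).image (fun x j => inner ℝ (u j) x)

theorem coords_nonempty (hr : Retr H n C r) (hn : n = 2 ^ Fintype.card ι) (u : ι → H) :
    (coords r u).Nonempty :=
  (hr.nonempty _ (cube_nonempty u) (by rw [hn]; exact cube_card u)).image _

theorem coords_card (hr : Retr H n C r) (hn : n = 2 ^ Fintype.card ι) (u : ι → H) :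
    (coords r u).card ≤ n - 1 :=
  le_trans Finset.card_image_le
    (hr.card_le _ (cube_nonempty u) (by rw [hn]; exact cube_card u))

theorem inner_vert {u : ι → H} (hu : Orthonormal ℝ u) (σ : ι → Bool) (j : ι) :
    inner ℝ (u j) (vert u σ) = half (σ j) := by
  rw [vert, hu.inner_right_fintype]

theorem coords_near (hr : Retr H n C r) (hC : 0 ≤ C) (hn : n = 2 ^ Fintype.card ι) (i0 : ι)
    {u : ι → H} (hu : Orthonormal ℝ u) :
    ∀ b ∈ coords r u, ∃ σ : ι → Bool, ∑ j, (b j - half (σ j)) ^ 2 ≤ (C + 1) ^ 2 := by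
  intro b hb
  obtain ⟨x, hx, rfl⟩ := Finset.mem_image.1 hb
  obtain ⟨σ, hσ⟩ := near hr hC hn i0 hu x hx
  refine ⟨σ, ?_⟩
  have h1 := hu.sum_inner_products_le (s := Finset.univ) (x - vert u σ)
  have h2 : ∑ j, (inner ℝ (u j) x - half (σ j)) ^ 2 = ∑ j, ‖inner ℝ (u j) (x - vert u σ)‖ ^ 2 := by
    apply Finset.sum_congr rfl
    intro j _
    rw [inner_sub_right, inner_vert hu, Real.norm_eq_abs, sq_abs]
  rw [h2]
  refine le_trans h1 ?_
  exact pow_le_pow_left₀ (norm_nonneg _) hσ 2

theorem norm_vert_le {u : ι → H} (hu : Orthonormal ℝ u) (σ : ι → Bool) :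
    ‖vert u σ‖ ≤ Fintype.card ι := by
  rw [vert]
  refine le_trans (norm_sum_le _ _) ?_
  have : ∀ j ∈ (Finset.univ : Finset ι), ‖half (σ j) • u j‖ ≤ 1 := by
    intro j _
    rw [norm_smul, hu.1 j, mul_one, Real.norm_eq_abs, abs_half]; norm_num
  refine le_trans (Finset.sum_le_sum this) ?_
  simp

/-- Continuity of the coordinate set in the orthonormal family. -/
theorem coords_close (hr : Retr H n C r) (hC : 0 ≤ C) (hn : n = 2 ^ Fintype.card ι) (i0 : ι)
    {u v : ι → H} (hu : Orthonormal ℝ u) (hv : Orthonormal ℝ v) {η : ℝ} (hη : 0 < η)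
    (huv : ∀ j, ‖u j - v j‖ ≤ η) :
    ∀ b ∈ coords r u, ∃ b' ∈ coords r v, ∀ j,
      |b j - b' j| ≤ ((C + 1 + Fintype.card ι) + (C + 1) * Fintype.card ι) * η := by
  intro b hb
  obtain ⟨x, hx, rfl⟩ := Finset.mem_image.1 hb
  have hN : (0 : ℝ) < Fintype.card ι := by
    exact_mod_cast Fintype.card_pos_iff.2 ⟨i0⟩
  have hcu : (cube u).card ≤ n := by rw [hn]; exact cube_card u
  have hcv : (cube v).card ≤ n := by rw [hn]; exact cube_card v
  have hvert : ∀ σ : ι → Bool, dist (vert u σ) (vert v σ) ≤ Fintype.card ι * η := by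
    intro σ
    rw [dist_eq_norm, vert, vert, ← Finset.sum_sub_distrib]
    refine le_trans (norm_sum_le _ _) ?_
    have : ∀ j ∈ (Finset.univ : Finset ι), ‖half (σ j) • u j - half (σ j) • v j‖ ≤ η := by
      intro j _
      rw [← smul_sub, norm_smul, Real.norm_eq_abs, abs_half]
      have := huv j
      have := norm_nonneg (u j - v j)
      linarith
    refine le_trans (Finset.sum_le_sum this) ?_
    simp
  have hd : Metric.hausdorffDist ((cube u : Finset H) : Set H) ((cube v : Finset H) : Set H)
      ≤ Fintype.card ι * η := by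
    apply Metric.hausdorffDist_le_of_mem_dist (by positivity)
    · intro y hy
      obtain ⟨σ, _, rfl⟩ := Finset.mem_image.1 (Finset.mem_coe.1 hy)
      exact ⟨vert v σ, Finset.mem_coe.2 (Finset.mem_image_of_mem _ (Finset.mem_univ _)), hvert σ⟩
    · intro y hy
      obtain ⟨σ, _, rfl⟩ := Finset.mem_image.1 (Finset.mem_coe.1 hy)
      exact ⟨vert u σ, Finset.mem_coe.2 (Finset.mem_image_of_mem _ (Finset.mem_univ _)), by
        rw [dist_comm]; exact hvert σ⟩
  have h1 := hr.lip (cube u) (cube v) (cube_nonempty u) hcu (cube_nonempty v) hcv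
  have hpos : 0 < Fintype.card ι * η := by positivity
  have h2 : Metric.hausdorffDist ((r (cube u) : Finset H) : Set H) ((r (cube v) : Finset H) : Set H)
      < (C + 1) * (Fintype.card ι * η) := by nlinarith
  obtain ⟨y, hy, hxy⟩ := Metric.exists_dist_lt_of_hausdorffDist_lt (Finset.mem_coe.2 hx) h2
    (edist_ne_top (hr.nonempty _ (cube_nonempty u) hcu) (hr.nonempty _ (cube_nonempty v) hcv))
  refine ⟨fun j => inner ℝ (v j) y, Finset.mem_image_of_mem _ (Finset.mem_coe.1 hy), ?_⟩
  intro j
  obtain ⟨σ, hσ⟩ := near hr hC hn i0 hu x hx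
  have hxn : ‖x‖ ≤ C + 1 + Fintype.card ι := by
    calc ‖x‖ = ‖(x - vert u σ) + vert u σ‖ := by rw [sub_add_cancel]
      _ ≤ ‖x - vert u σ‖ + ‖vert u σ‖ := norm_add_le _ _
      _ ≤ _ := by have := norm_vert_le hu σ; linarith
  have e1 : inner ℝ (u j) x - inner ℝ (v j) y = inner ℝ (u j - v j) x + inner ℝ (v j) (x - y) := by
    rw [inner_sub_left, inner_sub_right]; ring
  rw [e1]
  have e2 : |inner ℝ (u j - v j) x| ≤ η * (C + 1 + Fintype.card ι) := by
    refine le_trans (abs_real_inner_le_norm _ _) ?_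
    exact mul_le_mul (huv j) hxn (norm_nonneg _) hη.le
  have e3 : |inner ℝ (v j) (x - y)| ≤ (C + 1) * (Fintype.card ι * η) := by
    refine le_trans (abs_real_inner_le_norm _ _) ?_
    rw [hv.1 j, one_mul, ← dist_eq_norm]
    exact hxy.le
  calc _ ≤ |inner ℝ (u j - v j) x| + |inner ℝ (v j) (x - y)| := abs_add_le _ _
    _ ≤ η * (C + 1 + Fintype.card ι) + (C + 1) * (Fintype.card ι * η) := add_le_add e2 e3
    _ = _ := by ring

theorem cube_perm (u : ι → H) (π : Equiv.Perm ι) : cube (fun j => u (π j)) = cube u := by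
  ext x
  simp only [cube, Finset.mem_image, Finset.mem_univ, true_and]
  constructor
  · rintro ⟨σ, rfl⟩
    refine ⟨fun j => σ (π.symm j), ?_⟩
    simp only [vert]
    rw [← Equiv.sum_comp π]
    simp
  · rintro ⟨σ, rfl⟩
    refine ⟨fun j => σ (π j), ?_⟩
    simp only [vert]
    exact Equiv.sum_comp π (fun j => half (σ j) • u j)

theorem cube_flip [DecidableEq ι] (u : ι → H) (i0 : ι) :
    cube (fun j => if j = i0 then -u j else u j) = cube u := by
  have key : ∀ (w : ι → H) (σ : ι → Bool),
      vert (fun j => if j = i0 then -w j else w j) σ = vert w (fun j => if j = i0 then !σ j else σ j) := by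
    intro w σ
    simp only [vert]
    apply Finset.sum_congr rfl
    intro j _
    by_cases hj : j = i0
    · subst hj
      simp only [if_true]
      cases σ j <;> norm_num [half]
    · simp [hj]
  ext x
  simp only [cube, Finset.mem_image, Finset.mem_univ, true_and]
  constructor
  · rintro ⟨σ, rfl⟩
    exact ⟨_, (key u σ).symm⟩
  · rintro ⟨σ, rfl⟩
    refine ⟨fun j => if j = i0 then !σ j else σ j, ?_⟩
    rw [key]
    congr 1
    funext j
    by_cases hj : j = i0 <;> simp [hj]

theorem coords_perm (u : ι → H) (π : Equiv.Perm ι) :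
    ∀ b ∈ coords r (fun j => u (π j)), ∃ b' ∈ coords r u, ∀ j, b j = b' (π j) := by
  intro b hb
  obtain ⟨x, hx, rfl⟩ := Finset.mem_image.1 hb
  rw [cube_perm] at hx
  exact ⟨fun j => inner ℝ (u j) x, Finset.mem_image_of_mem _ hx, fun j => rfl⟩

theorem coords_flip [DecidableEq ι] (u : ι → H) (i0 : ι) :
    ∀ b ∈ coords r (fun j => if j = i0 then -u j else u j), ∃ b' ∈ coords r u,
      ∀ j, b j = if j = i0 then -b' j else b' j := by
  intro b hb
  obtain ⟨x, hx, rfl⟩ := Finset.mem_image.1 hb
  rw [cube_flip] at hx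
  refine ⟨fun j => inner ℝ (u j) x, Finset.mem_image_of_mem _ hx, fun j => ?_⟩
  by_cases hj : j = i0
  · simp [hj, inner_neg_left]
  · simp [hj]

end

end Pool.Agent.R814
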