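import Mathlib
import Pool.Agent.R814.Geo

/-! Interleaved alternating block vectors and the proof that uniformly Lipschitz retractions
`H(n) → H(n-1)` do not exist in an infinite-dimensional Hilbert space. -/

set_option autoImplicit false
set_option maxHeartbeats 400000

namespace Pool.Agent.R814


section
variable {H : Type*} [NormedAddCommGroup H] [InnerProductSpace ℝ H]

/-- interleaved alternating block vectors. -/
noncomputable def uvec (p K : ℕ) (e : ℕ → H) (s : ℕ → ℕ) (j : ZMod p) : H :=
  (K : ℝ)⁻¹ • ∑ m ∈ Finset.range K, ∑ k ∈ Finset.range K,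
    ((-1 : ℝ) ^ k) • e (s ((m * p + j.val) * K + k))

theorem pos_div {K q k : ℕ} (hk : k < K) : (q * K + k) / K = q := by
  have hK : 0 < K := by omega
  rw [Nat.mul_comm, Nat.mul_add_div hK, Nat.div_eq_of_lt hk, Nat.add_zero]

theorem pos_mod {K q k : ℕ} (hk : k < K) : (q * K + k) % K = k := by
  rw [Nat.mul_comm, Nat.mul_add_mod, Nat.mod_eq_of_lt hk]

theorem uvec_orthonormal {p K : ℕ} [Fact p.Prime] (hK : 0 < K) {e : ℕ → H} (he : Orthonormal ℝ e)
    {s : ℕ → ℕ} (hs : Function.Injective s) : Orthonormal ℝ (uvec p K e s) := by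
  let E : ZMod p × Fin K × Fin K → H := fun x => e (s ((x.2.1 * p + x.1.val) * K + x.2.2))
  have hE : Orthonormal ℝ E := by
    apply he.comp
    rintro ⟨j, m, k⟩ ⟨j', m', k'⟩ h
    have h1 := hs h
    simp only at h1
    have hk : k = k' := by
      have := congrArg (· % K) h1
      simp only [pos_mod k.2, pos_mod k'.2] at this
      exact Fin.ext this
    have hq : (m : ℕ) * p + j.val = m' * p + j'.val := by
      have := congrArg (· / K) h1
      simpa only [pos_div k.2, pos_div k'.2] using this
    have hj : j = j' := by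
      have := congrArg (· % p) hq
      simp only [pos_mod (ZMod.val_lt j), pos_mod (ZMod.val_lt j')] at this
      exact ZMod.val_injective p this
    have hm : m = m' := by
      have := congrArg (· / p) hq
      simp only [pos_div (ZMod.val_lt j), pos_div (ZMod.val_lt j')] at this
      exact Fin.ext this
    rw [hk, hj, hm]
  have hu : ∀ j, uvec p K e s j = ∑ x : ZMod p × Fin K × Fin K,
      (if x.1 = j then (K : ℝ)⁻¹ * (-1 : ℝ) ^ (x.2.2 : ℕ) else 0) • E x := by
    intro j
    rw [Fintype.sum_prod_type, Finset.sum_eq_single j]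
    · simp only [if_true, uvec, E]
      rw [Fintype.sum_prod_type, Finset.smul_sum, Finset.sum_range]
      apply Finset.sum_congr rfl
      intro m _
      rw [Finset.smul_sum, Finset.sum_range]
      apply Finset.sum_congr rfl
      intro k _
      rw [smul_smul]
    · intro b _ hb
      simp [hb]
    · intro h; exact absurd (Finset.mem_univ _) h
  rw [orthonormal_iff_ite]
  intro i j
  rw [hu i, hu j, hE.inner_sum]
  by_cases hij : i = j
  · subst hij
    rw [if_pos rfl, Fintype.sum_prod_type, Finset.sum_eq_single i]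
    · simp only [if_true]
      rw [Fintype.sum_prod_type]
      have : ∀ (m k : Fin K), (starRingEnd ℝ) ((K : ℝ)⁻¹ * (-1 : ℝ) ^ (k : ℕ)) *
          ((K : ℝ)⁻¹ * (-1 : ℝ) ^ (k : ℕ)) = (K : ℝ)⁻¹ * (K : ℝ)⁻¹ := by
        intro m k
        rw [conj_trivial]
        have h1 : ((-1 : ℝ) ^ (k : ℕ)) * ((-1 : ℝ) ^ (k : ℕ)) = 1 := by
          rw [← mul_pow]; norm_num
        calc _ = (K : ℝ)⁻¹ * (K : ℝ)⁻¹ * (((-1 : ℝ) ^ (k : ℕ)) * ((-1 : ℝ) ^ (k : ℕ))) := by ring
          _ = _ := by rw [h1, mul_one]
      rw [Finset.sum_congr rfl (fun m _ => Finset.sum_congr rfl (fun k _ => this m k))]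
      simp only [Finset.sum_const, Finset.card_univ, Fintype.card_fin, nsmul_eq_mul]
      have hK' : (K : ℝ) ≠ 0 := by positivity
      field_simp
    · intro b _ hb
      simp [hb]
    · intro h; exact absurd (Finset.mem_univ _) h
  · rw [if_neg hij]
    apply Finset.sum_eq_zero
    intro x _
    by_cases h1 : x.1 = i
    · have h2 : x.1 ≠ j := fun h => hij (h1.symm.trans h)
      simp [h2]
    · simp [h1]

theorem norm_sum_pm {e : ℕ → H} (he : Orthonormal ℝ e) {f : ℕ → ℕ} (hf : Function.Injective f)
    (c : ℕ → ℝ) (hc : ∀ k, c k ^ 2 = 1) (K : ℕ) :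
    ‖∑ k ∈ Finset.range K, c k • e (f k)‖ = Real.sqrt K := by
  have h1 : Orthonormal ℝ (fun k => e (f k)) := he.comp f hf
  have h2 := h1.inner_sum c c (Finset.range K)
  rw [real_inner_self_eq_norm_sq] at h2
  have h3 : ∑ i ∈ Finset.range K, (starRingEnd ℝ) (c i) * c i = K := by
    simp only [conj_trivial]
    have : ∀ i ∈ Finset.range K, c i * c i = 1 := fun i _ => by rw [← sq]; exact hc i
    rw [Finset.sum_congr rfl this]; simp
  rw [h3] at h2
  rw [← h2, Real.sqrt_sq (norm_nonneg _)]

/-- position in the long sequence. -/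
def PP (K q k : ℕ) : ℕ := q * K + k + q

theorem inv_mul_sqrt {K : ℕ} (hK : 0 < K) : (K : ℝ)⁻¹ * Real.sqrt K = 1 / Real.sqrt K := by
  have h : (0 : ℝ) < K := by exact_mod_cast hK
  have h1 : Real.sqrt K * Real.sqrt K = K := Real.mul_self_sqrt h.le
  have h2 : 0 < Real.sqrt K := Real.sqrt_pos.2 h
  rw [eq_div_iff h2.ne', mul_assoc, h1]
  field_simp

theorem shift_close {p K : ℕ} [Fact p.Prime] (hK : 0 < K) {e : ℕ → H} (he : Orthonormal ℝ e)
    {s : ℕ → ℕ} (hs : StrictMono s) (j : ZMod p) :
    ‖uvec p K e (fun i => s (i + i / K + (K + 1))) j - uvec p K e (fun i => s (i + i / K)) (j + 1)‖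
      ≤ 2 / Real.sqrt K := by
  set G : ℕ → H := fun q => ∑ k ∈ Finset.range K, ((-1 : ℝ) ^ k) • e (s (PP K q k)) with hG
  have h1 : ∀ j : ZMod p, uvec p K e (fun i => s (i + i / K)) j =
      (K : ℝ)⁻¹ • ∑ m ∈ Finset.range K, G (m * p + j.val) := by
    intro j
    simp only [uvec, hG]
    congr 1
    apply Finset.sum_congr rfl
    intro m _
    apply Finset.sum_congr rfl
    intro k hk
    rw [pos_div (Finset.mem_range.1 hk)]
    rfl
  have h3 : uvec p K e (fun i => s (i + i / K + (K + 1))) j =
      (K : ℝ)⁻¹ • ∑ m ∈ Finset.range K, G (m * p + j.val + 1) := by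
    simp only [uvec, hG]
    congr 1
    apply Finset.sum_congr rfl
    intro m _
    apply Finset.sum_congr rfl
    intro k hk
    rw [pos_div (Finset.mem_range.1 hk)]
    congr 3
    simp only [PP]
    ring
  have hGn : ∀ q, ‖G q‖ = Real.sqrt K := by
    intro q
    apply norm_sum_pm he (f := fun k => s (PP K q k))
    · intro a b hab
      have := hs.injective hab
      simp only [PP] at this
      omega
    · intro k; rw [← pow_mul, mul_comm, pow_mul]; norm_num
  have hp2 : 2 ≤ p := (Fact.out : p.Prime).two_le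
  have hsq : 0 < Real.sqrt K := Real.sqrt_pos.2 (by exact_mod_cast hK)
  have hval : (j + 1).val = (j.val + 1) % p := by
    rw [ZMod.val_add, ZMod.val_one'' (by omega)]
  rw [h1, h3, ← smul_sub]
  by_cases hj : j.val + 1 < p
  · rw [hval, Nat.mod_eq_of_lt hj]
    have : ∑ m ∈ Finset.range K, G (m * p + j.val + 1) = ∑ m ∈ Finset.range K, G (m * p + (j.val + 1)) := by
      apply Finset.sum_congr rfl
      intro m _
      rw [add_assoc]
    rw [this, sub_self, smul_zero, norm_zero]
    positivity
  · have hjp : j.val + 1 = p := by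
      have := ZMod.val_lt j
      omega
    rw [hval, hjp, Nat.mod_self]
    have : ∑ m ∈ Finset.range K, G (m * p + j.val + 1) - ∑ m ∈ Finset.range K, G (m * p + 0)
        = G (K * p) - G (0 * p) := by
      rw [← Finset.sum_sub_distrib]
      have h5 := Finset.sum_range_sub (fun m => G (m * p)) K
      rw [← h5]
      apply Finset.sum_congr rfl
      intro m _
      have e1 : m * p + j.val + 1 = (m + 1) * p := by
        rw [add_assoc, hjp]; ring
      rw [e1]; rfl
    rw [this, norm_smul, norm_inv, Real.norm_natCast]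
    calc (K : ℝ)⁻¹ * ‖G (K * p) - G (0 * p)‖ ≤ (K : ℝ)⁻¹ * (Real.sqrt K + Real.sqrt K) := by
          apply mul_le_mul_of_nonneg_left _ (by positivity)
          refine le_trans (norm_sub_le _ _) ?_
          rw [hGn, hGn]
      _ = (K : ℝ)⁻¹ * Real.sqrt K + (K : ℝ)⁻¹ * Real.sqrt K := by ring
      _ = 2 / Real.sqrt K := by rw [inv_mul_sqrt hK]; ring

theorem flip_same {p K : ℕ} [Fact p.Prime] {e : ℕ → H}
    {s : ℕ → ℕ} (j : ZMod p) (hj : j ≠ 0) :
    uvec p K e (fun i => s (i + i / K + (if (i / K) % p = 0 then 1 else 0))) j =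
      uvec p K e (fun i => s (i + i / K)) j := by
  simp only [uvec]
  congr 1
  apply Finset.sum_congr rfl
  intro m _
  apply Finset.sum_congr rfl
  intro k hk
  rw [pos_div (Finset.mem_range.1 hk), pos_mod (ZMod.val_lt j), if_neg, Nat.add_zero]
  intro h
  exact hj ((ZMod.val_eq_zero j).1 h)

theorem flip_close {p K : ℕ} [Fact p.Prime] (hK : 0 < K) (hKe : Even K) {e : ℕ → H}
    (he : Orthonormal ℝ e) {s : ℕ → ℕ} (hs : StrictMono s) :
    ‖uvec p K e (fun i => s (i + i / K + (if (i / K) % p = 0 then 1 else 0))) (0 : ZMod p) -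
      (- uvec p K e (fun i => s (i + i / K)) (0 : ZMod p))‖ ≤ 2 / Real.sqrt K := by
  have hp2 : 2 ≤ p := (Fact.out : p.Prime).two_le
  have h1 : uvec p K e (fun i => s (i + i / K)) (0 : ZMod p) =
      (K : ℝ)⁻¹ • ∑ m ∈ Finset.range K, ∑ k ∈ Finset.range K,
        ((-1 : ℝ) ^ k) • e (s (PP K (m * p) k)) := by
    simp only [uvec]
    congr 1
    apply Finset.sum_congr rfl
    intro m _
    apply Finset.sum_congr rfl
    intro k hk
    rw [pos_div (Finset.mem_range.1 hk), ZMod.val_zero]
    rfl
  have h2 : uvec p K e (fun i => s (i + i / K + (if (i / K) % p = 0 then 1 else 0))) (0 : ZMod p) =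
      (K : ℝ)⁻¹ • ∑ m ∈ Finset.range K, ∑ k ∈ Finset.range K,
        ((-1 : ℝ) ^ k) • e (s (PP K (m * p) (k + 1))) := by
    simp only [uvec]
    congr 1
    apply Finset.sum_congr rfl
    intro m _
    apply Finset.sum_congr rfl
    intro k hk
    rw [pos_div (Finset.mem_range.1 hk), ZMod.val_zero, Nat.add_zero, Nat.mul_mod_left, if_pos rfl]
    congr 3
    simp only [PP]
    ring
  have htel : ∀ a : ℕ → H, ∑ k ∈ Finset.range K, ((-1 : ℝ) ^ k) • a (k + 1) +
      ∑ k ∈ Finset.range K, ((-1 : ℝ) ^ k) • a k = a 0 - a K := by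
    intro a
    rw [← Finset.sum_add_distrib]
    have h5 := Finset.sum_range_sub' (fun k => ((-1 : ℝ) ^ k) • a k) K
    rw [hKe.neg_one_pow, pow_zero, one_smul, one_smul] at h5
    rw [← h5]
    apply Finset.sum_congr rfl
    intro k _
    rw [pow_succ, mul_neg_one, neg_smul, sub_neg_eq_add, add_comm]
  rw [h1, h2, sub_neg_eq_add, ← smul_add, ← Finset.sum_add_distrib]
  have h3 : ∀ m ∈ Finset.range K, (∑ k ∈ Finset.range K, ((-1 : ℝ) ^ k) • e (s (PP K (m * p) (k + 1))) +
      ∑ k ∈ Finset.range K, ((-1 : ℝ) ^ k) • e (s (PP K (m * p) k))) =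
      e (s (PP K (m * p) 0)) - e (s (PP K (m * p) K)) := fun m _ =>
    htel (fun k => e (s (PP K (m * p) k)))
  rw [Finset.sum_congr rfl h3, Finset.sum_sub_distrib, norm_smul, norm_inv, Real.norm_natCast]
  have hn : ∀ k0 : ℕ, ‖∑ m ∈ Finset.range K, e (s (PP K (m * p) k0))‖ = Real.sqrt K := by
    intro k0
    have := norm_sum_pm he (f := fun m => s (PP K (m * p) k0)) (by
      intro a b hab
      have h6 := hs.injective hab
      simp only [PP] at h6
      have h7 : a * (p * K + p) = b * (p * K + p) := by nlinarith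
      have h8 : 0 < p * K + p := by positivity
      exact Nat.eq_of_mul_eq_mul_right h8 h7) (fun _ => 1) (fun _ => by norm_num) K
    simpa using this
  calc (K : ℝ)⁻¹ * ‖∑ m ∈ Finset.range K, e (s (PP K (m * p) 0)) -
        ∑ m ∈ Finset.range K, e (s (PP K (m * p) K))‖
      ≤ (K : ℝ)⁻¹ * (Real.sqrt K + Real.sqrt K) := by
        apply mul_le_mul_of_nonneg_left _ (by positivity)
        refine le_trans (norm_sub_le _ _) ?_
        rw [hn, hn]
    _ = (K : ℝ)⁻¹ * Real.sqrt K + (K : ℝ)⁻¹ * Real.sqrt K := by ring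
    _ = 2 / Real.sqrt K := by rw [inv_mul_sqrt hK]; ring

theorem flip_all {p K : ℕ} [Fact p.Prime] (hK : 0 < K) (hKe : Even K) {e : ℕ → H}
    (he : Orthonormal ℝ e) {s : ℕ → ℕ} (hs : StrictMono s) (j : ZMod p) :
    ‖uvec p K e (fun i => s (i + i / K + (if (i / K) % p = 0 then 1 else 0))) j -
      (if j = 0 then - uvec p K e (fun i => s (i + i / K)) j
        else uvec p K e (fun i => s (i + i / K)) j)‖ ≤ 2 / Real.sqrt K := by
  by_cases hj : j = 0
  · rw [hj, if_pos rfl]
    exact flip_close hK hKe he hs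
  · rw [if_neg hj, flip_same j hj, sub_self, norm_zero]
    positivity

theorem flip_orth {p : ℕ} [Fact p.Prime] {u : ZMod p → H} (hu : Orthonormal ℝ u) :
    Orthonormal ℝ (fun j : ZMod p => if j = 0 then -u j else u j) := by
  rw [orthonormal_iff_ite]
  intro i j
  rw [orthonormal_iff_ite] at hu
  have h1 := hu i j
  by_cases hi : i = 0 <;> by_cases hj : j = 0
  · simp only [hi, hj, if_true, inner_neg_left, inner_neg_right, neg_neg] at h1 ⊢
    exact h1
  · have hij : i ≠ j := fun h => hj (h.symm.trans hi)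
    rw [if_neg hij] at h1
    rw [if_pos hi, if_neg hj, inner_neg_left, h1, if_neg hij, neg_zero]
  · have hij : i ≠ j := fun h => hi (h.trans hj)
    rw [if_neg hij] at h1
    rw [if_neg hi, if_pos hj, inner_neg_right, h1, if_neg hij, neg_zero]
  · rw [if_neg hi, if_neg hj, h1]

/-- The main theorem: Lipschitz constants of retractions `H(2^p) → H(2^p-1)` are unbounded. -/
theorem main {p : ℕ} [Fact p.Prime] {e : ℕ → H} (he : Orthonormal ℝ e) {C : ℝ} (hC : 0 ≤ C)
    {r : Finset H → Finset H} (hr : Retr H (2 ^ p) C r)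
    (hpD : ∀ z : ℕ, (z : ℝ) ≤ 4 * (C + 1) ^ 2 → 2 ^ z ≤ p) : False := by
  have hp : p.Prime := Fact.out
  have hn : 2 ^ p = 2 ^ Fintype.card (ZMod p) := by rw [ZMod.card]
  have hkey : 2 ^ p ≤ 2 ^ p - 1 := by
    apply count_approx ((C + 1) ^ 2) (2 ^ p - 1) hpD
    intro ε hε
    -- constants
    set K1 : ℝ := ((C + 1 + Fintype.card (ZMod p)) + (C + 1) * Fintype.card (ZMod p)) with hK1
    have hK1pos : 0 < K1 := by
      have : (0 : ℝ) ≤ Fintype.card (ZMod p) := Nat.cast_nonneg _
      have h2 : 0 ≤ (C + 1) * Fintype.card (ZMod p) := by positivity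
      linarith
    obtain ⟨T, hT⟩ := exists_nat_gt ((4 * K1 / ε) ^ 2)
    set K : ℕ := 2 * (T + 1) with hKdef
    have hK : 0 < K := by omega
    have hKe : Even K := ⟨T + 1, by omega⟩
    have hKR : (4 * K1 / ε) ^ 2 < (K : ℝ) := by
      have : (T : ℝ) ≤ K := by exact_mod_cast (by omega : T ≤ K)
      linarith
    have hsq : 0 < Real.sqrt K := Real.sqrt_pos.2 (by exact_mod_cast hK)
    have hη : K1 * (2 / Real.sqrt K) ≤ ε / 2 := by
      have h1 : 4 * K1 / ε ≤ Real.sqrt K := Real.le_sqrt_of_sq_le hKR.le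
      rw [div_le_iff₀ hε] at h1
      rw [mul_div_assoc', div_le_iff₀ hsq]
      linarith
    have hηpos : 0 < 2 / Real.sqrt K := by positivity
    -- the finite net
    have hcomp : IsCompact (Metric.closedBall (0 : ZMod p → ℝ) (C + 2)) := isCompact_closedBall _ _
    obtain ⟨t, _, htfin, htcov⟩ := hcomp.finite_cover_balls (e := ε / 4) (by linarith)
    have : Finite t := htfin.to_subtype
    -- coloring
    let c : (ℕ → ℕ) → Set t := fun s =>
      {q | ∃ b ∈ coords r (uvec p K e s), dist (q : ZMod p → ℝ) b < ε / 4}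
    have hcolor : ∀ s s' : ℕ → ℕ, Function.Injective s → c s = c s' →
        ∀ b ∈ coords r (uvec p K e s), ∃ b' ∈ coords r (uvec p K e s'), ∀ j, |b j - b' j| ≤ ε / 2 := by
      intro s s' hs hcc b hb
      have hbb : b ∈ Metric.closedBall (0 : ZMod p → ℝ) (C + 2) := by
        rw [mem_closedBall_zero_iff, pi_norm_le_iff_of_nonneg (by linarith)]
        intro j
        obtain ⟨σ, hσ⟩ := coords_near hr hC hn 0 (uvec_orthonormal hK he hs) b hb
        have h1 : (b j - half (σ j)) ^ 2 ≤ (C + 1) ^ 2 :=
          le_trans (Finset.single_le_sum (f := fun j => (b j - half (σ j)) ^ 2)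
            (fun _ _ => sq_nonneg _) (Finset.mem_univ j)) hσ
        have h2 : |b j - half (σ j)| ≤ C + 1 := abs_le_of_sq_le_sq h1 (by linarith)
        have h3 := abs_half (σ j)
        rw [Real.norm_eq_abs]
        calc |b j| = |(b j - half (σ j)) + half (σ j)| := by ring_nf
          _ ≤ |b j - half (σ j)| + |half (σ j)| := abs_add_le _ _
          _ ≤ C + 2 := by rw [h3]; linarith
      have hcv := htcov hbb
      simp only [Set.mem_iUnion, Metric.mem_ball, exists_prop] at hcv
      obtain ⟨q, hqt, hq⟩ := hcv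
      have hqc : (⟨q, hqt⟩ : t) ∈ c s := ⟨b, hb, by rw [dist_comm]; exact hq⟩
      rw [hcc] at hqc
      obtain ⟨b', hb', hd⟩ := hqc
      refine ⟨b', hb', fun j => ?_⟩
      have h4 : dist b b' ≤ ε / 2 := by
        have := dist_triangle b q b'
        have h5 : dist q b' < ε / 4 := hd
        linarith
      have h6 := dist_le_pi_dist b b' j
      rw [Real.dist_eq] at h6
      linarith
    obtain ⟨s, hs, k0, hk0⟩ := ramsey_fun (K * p * K) (K * p * K + K * p + K + 3) c (by
      intro f g hfg
      have : uvec p K e f = uvec p K e g := by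
        funext j
        simp only [uvec]
        congr 1
        apply Finset.sum_congr rfl
        intro m hm
        apply Finset.sum_congr rfl
        intro k hk
        rw [hfg]
        have h1 := Finset.mem_range.1 hm
        have h2 := Finset.mem_range.1 hk
        have h3 := ZMod.val_lt j
        have h4 : m * p + j.val + 1 ≤ K * p := by nlinarith
        nlinarith
      simp only [c, this])
    have hdiv : ∀ i < K * p * K, i / K < K * p := fun i hi => Nat.div_lt_of_lt_mul (by linarith [Nat.mul_comm (K * p) K])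
    have hdm : ∀ i j : ℕ, i < j → i / K ≤ j / K := fun i j hij => Nat.div_le_div_right hij.le
    have c1 := hk0 (fun i => i + i / K) (fun i j hij _ => by have := hdm i j hij; omega)
      (fun i hi => by have := hdiv i hi; omega)
    have c2 := hk0 (fun i => i + i / K + (if (i / K) % p = 0 then 1 else 0))
      (fun i j hij _ => by
        have h1 := hdm i j hij
        rcases h1.eq_or_lt with h2 | h2
        · rw [h2]; omega
        · split_ifs <;> omega)
      (fun i hi => by have := hdiv i hi; split_ifs <;> omega)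
    have c3 := hk0 (fun i => i + i / K + (K + 1)) (fun i j hij _ => by have := hdm i j hij; omega)
      (fun i hi => by have := hdiv i hi; omega)
    set s1 : ℕ → ℕ := fun i => s (i + i / K) with hs1
    set s2 : ℕ → ℕ := fun i => s (i + i / K + (if (i / K) % p = 0 then 1 else 0)) with hs2
    set s3 : ℕ → ℕ := fun i => s (i + i / K + (K + 1)) with hs3
    have i1 : Function.Injective s1 := by
      have : StrictMono s1 := by
        intro i j hij
        apply hs
        have := hdm i j hij
        omega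
      exact this.injective
    have i2 : Function.Injective s2 := by
      have : StrictMono s2 := by
        intro i j hij
        apply hs
        have h1 := hdm i j hij
        rcases h1.eq_or_lt with h2 | h2
        · rw [h2]; omega
        · split_ifs <;> omega
      exact this.injective
    have i3 : Function.Injective s3 := by
      have : StrictMono s3 := by
        intro i j hij
        apply hs
        have := hdm i j hij
        omega
      exact this.injective
    have o1 := uvec_orthonormal (p := p) hK he i1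
    have o2 := uvec_orthonormal (p := p) hK he i2
    have o3 := uvec_orthonormal (p := p) hK he i3
    refine ⟨coords r (uvec p K e s1), coords_nonempty hr hn _, coords_card hr hn _,
      coords_near hr hC hn 0 o1, ?_, ?_⟩
    · -- shift
      intro b hb
      obtain ⟨b3, hb3, hd3⟩ := hcolor s1 s3 i1 (c1.trans c3.symm) b hb
      have o1' : Orthonormal ℝ (fun j : ZMod p => uvec p K e s1 ((Equiv.addRight (1 : ZMod p)) j)) :=
        o1.comp _ (Equiv.injective _)
      obtain ⟨b4, hb4, hd4⟩ := coords_close hr hC hn 0 o3 o1' hηpos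
        (fun j => shift_close hK he hs j) b3 hb3
      obtain ⟨b5, hb5, hd5⟩ := coords_perm (r := r) (uvec p K e s1) (Equiv.addRight (1 : ZMod p)) b4 hb4
      refine ⟨b5, hb5, fun j => ?_⟩
      have e1 := hd3 j
      have e2 := hd4 j
      have e3 := hd5 j
      simp only [Equiv.coe_addRight] at e3
      rw [← e3]
      calc |b j - b4 j| = |(b j - b3 j) + (b3 j - b4 j)| := by ring_nf
        _ ≤ |b j - b3 j| + |b3 j - b4 j| := abs_add_le _ _
        _ ≤ ε / 2 + ε / 2 := add_le_add e1 (le_trans e2 hη)
        _ = ε := by ring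
    · -- flip
      intro b hb
      obtain ⟨b2, hb2, hd2⟩ := hcolor s1 s2 i1 (c1.trans c2.symm) b hb
      have o1' := flip_orth o1
      obtain ⟨b4, hb4, hd4⟩ := coords_close hr hC hn 0 o2 o1' hηpos
        (fun j => flip_all hK hKe he hs j) b2 hb2
      obtain ⟨b5, hb5, hd5⟩ := coords_flip (r := r) (uvec p K e s1) 0 b4 hb4
      refine ⟨b5, hb5, fun j => ?_⟩
      have e1 := hd2 j
      have e2 := hd4 j
      have e3 : b4 j = flipT {0} b5 j := by
        rw [hd5 j]
        simp only [flipT, Finset.mem_singleton]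
      rw [← e3]
      calc |b j - b4 j| = |(b j - b2 j) + (b2 j - b4 j)| := by ring_nf
        _ ≤ |b j - b2 j| + |b2 j - b4 j| := abs_add_le _ _
        _ ≤ ε / 2 + ε / 2 := add_le_add e1 (le_trans e2 hη)
        _ = ε := by ring
  have : 0 < 2 ^ p := by positivity
  omega

end

end Pool.Agent.R814
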